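import Mathlib

/-!
# MP_1d57ab_an : direct sums with all F-hypercyclic operators versus hereditary F-hypercyclicity

Negative answer to Q1.  The Furstenberg family is the family of all infinite subsets of `ℕ`, the space
is the Hilbert space `ℓ²`, and `T` is a weighted backward shift that is (topologically) mildly mixing
but not mixing.
-/

open Set Filter Topology

namespace Pool.Agent.Results.MP_1d57ab_an.DirectSumNotHereditary

universe u

/-- A Furstenberg family: a family of non-empty subsets of `ℕ` that is hereditary upwards. -/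
def FurstenbergFamily (F : Set (Set ℕ)) : Prop :=
  (∀ A ∈ F, A.Nonempty) ∧ ∀ A ∈ F, ∀ B : Set ℕ, A ⊆ B → B ∈ F

/-- The visit set `N_T(x, V) = {n : T^n x ∈ V}`. -/
def visit {X : Type*} (T : X → X) (x : X) (V : Set X) : Set ℕ := {n | T^[n] x ∈ V}

/-- `T` is `F`-hypercyclic: some `x` has `N_T(x, V) ∈ F` for every non-empty open `V`. -/
def FHypercyclic {X : Type*} [TopologicalSpace X] (F : Set (Set ℕ)) (T : X → X) : Prop :=
  ∃ x : X, ∀ V : Set X, IsOpen V → V.Nonempty → visit T x V ∈ F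

/-- `T` is hereditarily `F`-hypercyclic. -/
def HereditarilyFHypercyclic {X : Type*} [TopologicalSpace X] (F : Set (Set ℕ)) (T : X → X) :
    Prop :=
  ∀ (I : Type) [Countable I] (V : I → Set X) (A : I → Set ℕ),
    (∀ i, IsOpen (V i) ∧ (V i).Nonempty) → (∀ i, A i ∈ F) →
      ∃ x : X, ∀ i, visit T x (V i) ∩ A i ∈ F

/-- An infinite-dimensional Polish topological vector space. -/
structure IsSpace (𝕜 : Type*) [RCLike 𝕜] (X : Type*) [AddCommGroup X] [Module 𝕜 X]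
    [TopologicalSpace X] : Prop where
  addGroup : IsTopologicalAddGroup X
  smul : ContinuousSMul 𝕜 X
  polish : PolishSpace X
  infinite : ¬ FiniteDimensional 𝕜 X

/-! ### Birkhoff transitivity -/

lemma birkhoff {Z : Type*} [TopologicalSpace Z] [BaireSpace Z] [SecondCountableTopology Z]
    [Nonempty Z] (R : Z → Z) (hR : Continuous R)
    (h : ∀ U V : Set Z, IsOpen U → U.Nonempty → IsOpen V → V.Nonempty → ∀ N : ℕ,
      ∃ n, N ≤ n ∧ ∃ z ∈ U, R^[n] z ∈ V) :
    ∃ z : Z, ∀ V : Set Z, IsOpen V → V.Nonempty → (visit R z V).Infinite := by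
  classical
  have hb := TopologicalSpace.isBasis_countableBasis Z
  have hc := TopologicalSpace.countable_countableBasis Z
  set B := TopologicalSpace.countableBasis Z
  let G : Set Z → Set Z := fun V => ⋂ N : ℕ, ⋃ n ∈ {n : ℕ | N ≤ n}, (R^[n]) ⁻¹' V
  have hopen : ∀ V ∈ B, ∀ N : ℕ, IsOpen (⋃ n ∈ {n : ℕ | N ≤ n}, (R^[n]) ⁻¹' V) := by
    intro V hV N
    exact isOpen_biUnion fun n _ => (hb.isOpen hV).preimage (hR.iterate n)
  have hdense : ∀ V ∈ B, ∀ N : ℕ, Dense (⋃ n ∈ {n : ℕ | N ≤ n}, (R^[n]) ⁻¹' V) := by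
    intro V hV N
    rw [dense_iff_inter_open]
    intro U hU hUne
    obtain ⟨n, hn, z, hz, hzV⟩ := h U V hU hUne (hb.isOpen hV)
      (TopologicalSpace.nonempty_of_mem_countableBasis hV) N
    exact ⟨z, hz, mem_biUnion (show n ∈ {n : ℕ | N ≤ n} from hn) hzV⟩
  have hD : Dense (⋂ p : B × ℕ, ⋃ n ∈ {n : ℕ | p.2 ≤ n}, (R^[n]) ⁻¹' (p.1 : Set Z)) := by
    have : Countable B := hc.to_subtype
    exact dense_iInter_of_isOpen (fun p => hopen p.1 p.1.2 p.2) (fun p => hdense p.1 p.1.2 p.2)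
  obtain ⟨z, hz⟩ := hD.nonempty
  refine ⟨z, fun V hV hVne => ?_⟩
  obtain ⟨x, hx⟩ := hVne
  obtain ⟨W, hW, hxW, hWV⟩ := hb.exists_subset_of_mem_open hx hV
  rw [Set.infinite_iff_exists_gt]
  intro a
  have h1 := mem_iInter.1 hz (⟨W, hW⟩, a + 1)
  simp only [mem_ofPred_eq, mem_iUnion, mem_preimage, exists_prop] at h1
  obtain ⟨n, hn, hnW⟩ := h1
  exact ⟨n, hWV hnW, by omega⟩

/-! ### The distance to the powers of four -/

/-- distance from `n` to the set of powers of four -/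
noncomputable def dd (n : ℕ) : ℕ := sInf (Set.range fun k : ℕ => ((n : ℤ) - 4 ^ k).natAbs)

lemma dd_le (n k : ℕ) : dd n ≤ ((n : ℤ) - 4 ^ k).natAbs := Nat.sInf_le ⟨k, rfl⟩

lemma dd_mem (n : ℕ) : ∃ k : ℕ, dd n = ((n : ℤ) - 4 ^ k).natAbs := by
  have : dd n ∈ Set.range fun k : ℕ => ((n : ℤ) - 4 ^ k).natAbs :=
    Nat.sInf_mem (Set.range_nonempty _)
  obtain ⟨k, hk⟩ := this
  exact ⟨k, hk.symm⟩

lemma dd_lip (n m : ℕ) : dd (n + m) ≤ dd n + m := by
  obtain ⟨k, hk⟩ := dd_mem n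
  have := dd_le (n + m) k
  push_cast at this
  omega

lemma dd_lip' (n m : ℕ) : dd n ≤ dd (n + m) + m := by
  obtain ⟨k, hk⟩ := dd_mem (n + m)
  have := dd_le n k
  push_cast at hk
  omega

lemma dd_pow (k : ℕ) : dd (4 ^ k) = 0 := by
  have := dd_le (4 ^ k) k
  simpa using this

lemma dd_zero : dd 0 = 1 := by
  obtain ⟨k, hk⟩ := dd_mem 0
  have h1 := dd_le 0 0
  have h2 : (1 : ℤ) ≤ 4 ^ k := one_le_pow₀ (by norm_num)
  simp at h1
  have : ((0:ℕ):ℤ) - 4 ^ k = - 4 ^ k := by simp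
  rw [this] at hk
  omega

/-- The key combinatorial fact. -/
lemma key (i j l : ℕ) : min ((4 : ℤ) ^ i) (4 ^ j) ≤ |(4 : ℤ) ^ i + 4 ^ j - 4 ^ l| := by
  wlog hij : i ≤ j generalizing i j
  · have := this j i (by omega)
    rwa [min_comm, add_comm] at this
  have h1 : (4 : ℤ) ^ i ≤ 4 ^ j := pow_le_pow_right₀ (by norm_num) hij
  rw [min_eq_left h1]
  rcases le_or_gt l j with hl | hl
  · have h2 : (4 : ℤ) ^ l ≤ 4 ^ j := pow_le_pow_right₀ (by norm_num) hl
    refine le_trans ?_ (le_abs_self _)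
    linarith
  · have h2 : (4 : ℤ) ^ (j + 1) ≤ 4 ^ l := pow_le_pow_right₀ (by norm_num) hl
    have h3 : (4 : ℤ) ^ (j + 1) = 4 * 4 ^ j := by ring
    have h4 : (0 : ℤ) < 4 ^ j := by positivity
    refine le_trans ?_ (neg_le_abs _)
    linarith

/-- Return-time sets of a hypercyclic system meet the complement of a neighbourhood of the powers
of four. -/
lemma return_far {Y : Type*} [TopologicalSpace Y] (S : Y → Y) (hS : Continuous S)
    (hyp : FHypercyclic {A : Set ℕ | A.Infinite} S) (U V : Set Y) (hU : IsOpen U)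
    (hUne : U.Nonempty) (hV : IsOpen V) (hVne : V.Nonempty) (C : ℕ) :
    ∃ n, C ≤ n ∧ C ≤ dd n ∧ ∃ y ∈ U, S^[n] y ∈ V := by
  obtain ⟨y0, hy0⟩ := hyp
  obtain ⟨p, hp⟩ := (hy0 U hU hUne).nonempty
  obtain ⟨q, hq, hpq⟩ := (hy0 V hV hVne).exists_gt p
  obtain ⟨m, rfl⟩ : ∃ m, q = m + p := ⟨q - p, by omega⟩
  have hpU : S^[p] y0 ∈ U := hp
  have hqV : S^[m] (S^[p] y0) ∈ V := by
    rw [← Function.iterate_add_apply]; exact hq
  set W : Set Y := U ∩ (S^[m]) ⁻¹' V with hW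
  have hWo : IsOpen W := hU.inter (hV.preimage (hS.iterate m))
  have hinf := hy0 W hWo ⟨_, hpU, hqV⟩
  obtain ⟨s1, hs1⟩ := hinf.nonempty
  obtain ⟨s2, hs2, h12⟩ := hinf.exists_gt (s1 + 4 * C)
  obtain ⟨s3, hs3, h23⟩ := hinf.exists_gt (s2 + 4 * C)
  obtain ⟨a, rfl⟩ : ∃ a, s2 = a + s1 := ⟨s2 - s1, by omega⟩
  obtain ⟨b, rfl⟩ : ∃ b, s3 = b + (a + s1) := ⟨s3 - (a + s1), by omega⟩
  have ret : ∀ s t : ℕ, S^[s] y0 ∈ W → S^[t + s] y0 ∈ W → ∃ y ∈ U, S^[m + t] y ∈ V := by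
    intro s t h1 h2
    refine ⟨S^[s] y0, h1.1, ?_⟩
    have h3 : S^[m] (S^[t + s] y0) ∈ V := h2.2
    rwa [← Function.iterate_add_apply, ← add_assoc, Function.iterate_add_apply] at h3
  have r1 := ret s1 a hs1 hs2
  have r2 := ret (a + s1) b hs2 hs3
  have r3 := ret s1 (b + a) hs1 (by rw [add_assoc]; exact hs3)
  by_contra hcon
  push Not at hcon
  have d1 : dd (m + a) < C := by
    by_contra h; push Not at h
    obtain ⟨y, hy, hy'⟩ := r1
    exact hcon (m + a) (by omega) h y hy hy'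
  have d2 : dd (m + b) < C := by
    by_contra h; push Not at h
    obtain ⟨y, hy, hy'⟩ := r2
    exact hcon (m + b) (by omega) h y hy hy'
  have d3 : dd (m + (b + a)) < C := by
    by_contra h; push Not at h
    obtain ⟨y, hy, hy'⟩ := r3
    exact hcon (m + (b + a)) (by omega) h y hy hy'
  obtain ⟨i, hi⟩ := dd_mem (m + a)
  obtain ⟨j, hj⟩ := dd_mem (m + b)
  obtain ⟨l, hl⟩ := dd_mem (m + (b + a))
  have hk := key i j l
  push_cast at hi hj hl
  generalize (4 : ℤ) ^ i = x at *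
  generalize (4 : ℤ) ^ j = y at *
  generalize (4 : ℤ) ^ l = z at *
  rcases le_total x y with hxy | hxy
  · rw [min_eq_left hxy] at hk
    rcases abs_cases (x + y - z) with ⟨h, _⟩ | ⟨h, _⟩ <;> rw [h] at hk <;> omega
  · rw [min_eq_right hxy] at hk
    rcases abs_cases (x + y - z) with ⟨h, _⟩ | ⟨h, _⟩ <;> rw [h] at hk <;> omega

/-! ### The weighted shift on `ℓ²` -/

section Shift

variable (𝕜 : Type) [RCLike 𝕜]

/-- The Hilbert space `ℓ²`. -/
abbrev H : Type := lp (fun _ : ℕ => 𝕜) 2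

/-- the weights -/
noncomputable def wt (n : ℕ) : ℝ := 2 ^ dd (n + 1) / 2 ^ dd n

lemma wt_nonneg (n : ℕ) : 0 ≤ wt n := by unfold wt; positivity

lemma wt_le (n : ℕ) : wt n ≤ 2 := by
  unfold wt
  rw [div_le_iff₀ (by positivity)]
  calc (2:ℝ) ^ dd (n + 1) ≤ 2 ^ (dd n + 1) := pow_le_pow_right₀ (by norm_num) (dd_lip n 1)
    _ = 2 * 2 ^ dd n := by ring

variable {𝕜}

lemma summable_sq (x : H 𝕜) : Summable fun n => ‖x n‖ ^ (2 : ℕ) := by
  have h := (lp.memℓp x).summable (by norm_num : 0 < (2 : ENNReal).toReal)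
  simpa using h

lemma norm_sq_eq (x : H 𝕜) : ‖x‖ ^ (2 : ℕ) = ∑' n, ‖x n‖ ^ (2 : ℕ) := by
  have h := lp.norm_rpow_eq_tsum (by norm_num : 0 < (2 : ENNReal).toReal) x
  simpa using h

lemma summable_shift (x : H 𝕜) :
    Summable fun n => ‖((wt n : ℝ) : 𝕜) * x (n + 1)‖ ^ (2 : ℕ) := by
  have h1 : Summable fun n => 4 * ‖x (n + 1)‖ ^ (2 : ℕ) :=
    (((summable_nat_add_iff 1).2 (summable_sq x))).mul_left 4
  refine Summable.of_nonneg_of_le (fun n => by positivity) (fun n => ?_) h1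
  rw [norm_mul, mul_pow, RCLike.norm_ofReal, abs_of_nonneg (wt_nonneg n)]
  have h2 : wt n ^ 2 ≤ 4 := by nlinarith [wt_nonneg n, wt_le n]
  exact mul_le_mul_of_nonneg_right h2 (by positivity)

lemma tsum_shift_le (x : H 𝕜) :
    ∑' n, ‖((wt n : ℝ) : 𝕜) * x (n + 1)‖ ^ (2 : ℕ) ≤ 4 * ‖x‖ ^ (2 : ℕ) := by
  have hs := summable_sq x
  have hs1 := (summable_nat_add_iff 1).2 hs
  have h1 : Summable fun n => 4 * ‖x (n + 1)‖ ^ (2 : ℕ) := hs1.mul_left 4
  have h2 : ∑' n, ‖((wt n : ℝ) : 𝕜) * x (n + 1)‖ ^ (2 : ℕ) ≤ ∑' n, 4 * ‖x (n + 1)‖ ^ (2 : ℕ) := by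
    refine (summable_shift x).tsum_le_tsum (fun n => ?_) h1
    rw [norm_mul, mul_pow, RCLike.norm_ofReal, abs_of_nonneg (wt_nonneg n)]
    have h2 : wt n ^ 2 ≤ 4 := by nlinarith [wt_nonneg n, wt_le n]
    exact mul_le_mul_of_nonneg_right h2 (by positivity)
  rw [tsum_mul_left] at h2
  refine h2.trans ?_
  rw [norm_sq_eq, hs.tsum_eq_zero_add]
  have : (0:ℝ) ≤ ‖x 0‖ ^ 2 := by positivity
  linarith

lemma memlp_shift (x : H 𝕜) :
    Memℓp (fun n => ((wt n : ℝ) : 𝕜) * x (n + 1)) 2 := by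
  refine memℓp_gen ?_
  simpa using summable_shift x

variable (𝕜) in
/-- The weighted backward shift as a linear map. -/
noncomputable def Tlin : H 𝕜 →ₗ[𝕜] H 𝕜 where
  toFun x := ⟨fun n => ((wt n : ℝ) : 𝕜) * x (n + 1), memlp_shift x⟩
  map_add' x y := by
    apply lp.ext
    funext n
    change ((wt n : ℝ) : 𝕜) * (x + y) (n + 1) =
      ((wt n : ℝ) : 𝕜) * x (n + 1) + ((wt n : ℝ) : 𝕜) * y (n + 1)
    rw [lp.coeFn_add, Pi.add_apply, mul_add]
  map_smul' c x := by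
    apply lp.ext
    funext n
    simp [mul_left_comm]

variable (𝕜) in
/-- The weighted backward shift `(T x)_n = w_n x_{n+1}` on `ℓ²`. -/
noncomputable def T : H 𝕜 →L[𝕜] H 𝕜 :=
  (Tlin 𝕜).mkContinuous 2 (fun x => by
    have h1 : ‖Tlin 𝕜 x‖ ^ 2 ≤ (2 * ‖x‖) ^ 2 := by
      rw [norm_sq_eq, mul_pow]
      have := tsum_shift_le x
      norm_num
      exact this
    exact le_of_sq_le_sq h1 (by positivity))

lemma T_apply (x : H 𝕜) (n : ℕ) : T 𝕜 x n = ((wt n : ℝ) : 𝕜) * x (n + 1) := rfl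

lemma T_iter (n : ℕ) (x : H 𝕜) (m : ℕ) :
    ((T 𝕜)^[n] x) m = (((2 : ℝ) ^ dd (m + n) / 2 ^ dd m : ℝ) : 𝕜) * x (m + n) := by
  induction n generalizing x with
  | zero =>
    have : (2 : ℝ) ^ dd m ≠ 0 := by positivity
    simp [this]
  | succ n ih =>
    rw [Function.iterate_succ_apply, ih, T_apply, ← mul_assoc, ← RCLike.ofReal_mul, wt]
    congr 2
    have : (2 : ℝ) ^ dd (m + n) ≠ 0 := by positivity
    rw [← add_assoc]
    field_simp

variable (𝕜) in
lemma sep : TopologicalSpace.SeparableSpace (H 𝕜) := by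
  rw [← TopologicalSpace.isSeparable_univ_iff]
  have h1 : TopologicalSpace.IsSeparable ((Submodule.span 𝕜 (Set.range fun n : ℕ =>
      (lp.single 2 n (1 : 𝕜) : H 𝕜)) : Submodule 𝕜 (H 𝕜)) : Set (H 𝕜)) :=
    (Set.countable_range _).isSeparable.span
  refine h1.closure.mono ?_
  intro f _
  have h2 := lp.hasSum_single (E := fun _ : ℕ => 𝕜) (p := 2) (by norm_num) f
  refine mem_closure_of_tendsto h2.tendsto_sum_nat (Eventually.of_forall fun n => ?_)
  refine Submodule.sum_mem _ (fun i _ => ?_)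
  have h3 : (lp.single 2 i (f i) : H 𝕜) = (f i) • (lp.single 2 i (1 : 𝕜) : H 𝕜) := by
    rw [← lp.single_smul]
    simp
  rw [h3]
  exact Submodule.smul_mem _ _ (Submodule.subset_span ⟨i, rfl⟩)

variable (𝕜) in
lemma infdim : ¬ FiniteDimensional 𝕜 (H 𝕜) := by
  intro hfd
  have hli : LinearIndependent 𝕜 (fun n : ℕ => (lp.single 2 n (1 : 𝕜) : H 𝕜)) := by
    rw [linearIndependent_iff']
    intro s g hg i hi
    have h1 := congrArg (fun f : H 𝕜 => f i) hg
    simp only [lp.coeFn_sum, Finset.sum_apply, lp.coeFn_smul, Pi.smul_apply, lp.coeFn_single,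
      smul_eq_mul, lp.coeFn_zero, Pi.zero_apply] at h1
    rw [Finset.sum_eq_single i] at h1
    · simpa using h1
    · intro j _ hj
      simp [hj.symm]
    · intro h; exact absurd hi h
  have := hli.finite
  exact not_finite ℕ

variable (𝕜) in
lemma isSpace_H : IsSpace 𝕜 (H 𝕜) where
  addGroup := inferInstance
  smul := inferInstance
  polish := by
    have := sep 𝕜
    infer_instance
  infinite := infdim 𝕜

lemma trunc_tendsto (x : H 𝕜) :
    Tendsto (fun L => ∑ i ∈ Finset.range L, (lp.single 2 i (x i) : H 𝕜)) atTop (𝓝 x) :=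
  (lp.hasSum_single (E := fun _ : ℕ => 𝕜) (p := 2) (by norm_num) x).tendsto_sum_nat

lemma trunc_apply (x : ℕ → 𝕜) (L m : ℕ) :
    (∑ i ∈ Finset.range L, (lp.single 2 i (x i) : H 𝕜)) m = if m < L then x m else 0 := by
  simp only [lp.coeFn_sum, Finset.sum_apply, lp.coeFn_single]
  split_ifs with h
  · rw [Finset.sum_eq_single m]
    · simp
    · intro j _ hj
      simp [hj.symm]
    · intro h'; exact absurd (Finset.mem_range.2 h) h'
  · refine Finset.sum_eq_zero fun j hj => ?_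
    have : m ≠ j := by
      have := Finset.mem_range.1 hj
      omega
    simp [this]

lemma far (U V : Set (H 𝕜)) (hU : IsOpen U) (hUne : U.Nonempty) (hV : IsOpen V)
    (hVne : V.Nonempty) : ∃ C : ℕ, ∀ n, C ≤ n → C ≤ dd n → ∃ x ∈ U, (T 𝕜)^[n] x ∈ V := by
  obtain ⟨u, hu⟩ := hUne
  obtain ⟨v, hv⟩ := hVne
  have e1 := (trunc_tendsto u).eventually (hU.mem_nhds hu)
  have e2 := (trunc_tendsto v).eventually (hV.mem_nhds hv)
  obtain ⟨L, hL1, hL2⟩ := (e1.and e2).exists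
  obtain ⟨ε, hε, hball⟩ := Metric.isOpen_iff.1 hU _ hL1
  set K : ℝ := ∑ m ∈ Finset.range L, 2 ^ (dd m + m) * ‖v m‖ with hK
  have hK0 : 0 ≤ K := Finset.sum_nonneg fun m _ => by positivity
  obtain ⟨C0, hC0⟩ : ∃ C0 : ℕ, K / ε < 2 ^ C0 := pow_unbounded_of_one_lt _ (by norm_num)
  refine ⟨max C0 L, fun n hn hdn => ?_⟩
  have hnL : L ≤ n := (le_max_right _ _).trans hn
  have hdC : C0 ≤ dd n := (le_max_left _ _).trans hdn
  set z : H 𝕜 := ∑ m ∈ Finset.range L,
    (lp.single 2 (m + n) ((((2 : ℝ) ^ dd m / 2 ^ dd (m + n) : ℝ) : 𝕜) * v m) : H 𝕜) with hz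
  have hznorm : ‖z‖ < ε := by
    have h1 : ‖z‖ ≤ K / 2 ^ dd n := by
      rw [hz, hK, Finset.sum_div]
      refine (norm_sum_le _ _).trans (Finset.sum_le_sum fun m _ => ?_)
      rw [lp.norm_single (by norm_num), norm_mul, RCLike.norm_ofReal, abs_of_nonneg (by positivity),
        div_mul_eq_mul_div, div_le_div_iff₀ (by positivity) (by positivity)]
      have h2 : (2 : ℝ) ^ dd n ≤ 2 ^ (dd (m + n) + m) := by
        apply pow_le_pow_right₀ (by norm_num)
        rw [add_comm m n]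
        exact dd_lip' n m
      calc (2 : ℝ) ^ dd m * ‖v m‖ * 2 ^ dd n ≤ 2 ^ dd m * ‖v m‖ * 2 ^ (dd (m + n) + m) :=
            mul_le_mul_of_nonneg_left h2 (by positivity)
        _ = 2 ^ (dd m + m) * ‖v m‖ * 2 ^ dd (m + n) := by ring
    refine h1.trans_lt ?_
    rw [div_lt_iff₀ (by positivity)]
    rw [div_lt_iff₀ hε] at hC0
    have h3 : (2 : ℝ) ^ C0 ≤ 2 ^ dd n := pow_le_pow_right₀ (by norm_num) hdC
    nlinarith
  refine ⟨(∑ i ∈ Finset.range L, (lp.single 2 i (u i) : H 𝕜)) + z, hball ?_, ?_⟩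
  · rw [Metric.mem_ball, dist_eq_norm, add_sub_cancel_left]
    exact hznorm
  · have : (T 𝕜)^[n] ((∑ i ∈ Finset.range L, (lp.single 2 i (u i) : H 𝕜)) + z) =
        ∑ i ∈ Finset.range L, (lp.single 2 i (v i) : H 𝕜) := by
      apply lp.ext
      funext m
      rw [T_iter, trunc_apply, lp.coeFn_add, Pi.add_apply, trunc_apply, if_neg (by omega),
        zero_add, hz]
      simp only [lp.coeFn_sum, Finset.sum_apply, lp.coeFn_single]
      split_ifs with h
      · rw [Finset.sum_eq_single m]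
        · rw [Pi.single_eq_same, ← mul_assoc, ← RCLike.ofReal_mul]
          have h1 : (2 : ℝ) ^ dd (m + n) / 2 ^ dd m * (2 ^ dd m / 2 ^ dd (m + n)) = 1 := by
            have : (2 : ℝ) ^ dd (m + n) ≠ 0 := by positivity
            have : (2 : ℝ) ^ dd m ≠ 0 := by positivity
            field_simp
          rw [h1]
          simp
        · intro j _ hj
          rw [Pi.single_eq_of_ne (by omega)]
        · intro h'; exact absurd (Finset.mem_range.2 h) h'
      · rw [Finset.sum_eq_zero, mul_zero]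
        intro j hj
        have := Finset.mem_range.1 hj
        rw [Pi.single_eq_of_ne (by omega)]
    rw [this]
    exact hL2

lemma eval_cont : Continuous fun x : H 𝕜 => x 0 := by
  refine (LipschitzWith.of_dist_le_mul (K := 1) fun x y => ?_).continuous
  rw [dist_eq_norm, dist_eq_norm]
  have := lp.norm_apply_le_norm (by norm_num : (2 : ENNReal) ≠ 0) (x - y) 0
  simpa using this

variable (𝕜) in
lemma not_hereditary :
    ¬ HereditarilyFHypercyclic {A : Set ℕ | A.Infinite} (T 𝕜) := by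
  intro h
  have hO : IsOpen {x : H 𝕜 | 1 < ‖x 0‖} := isOpen_lt continuous_const (eval_cont.norm)
  have hne : ({x : H 𝕜 | 1 < ‖x 0‖}).Nonempty := by
    refine ⟨lp.single 2 0 (2 : 𝕜), ?_⟩
    simp
  have hA : (Set.range fun k : ℕ => 4 ^ k).Infinite :=
    Set.infinite_range_of_injective (Nat.pow_right_injective (by norm_num))
  obtain ⟨x, hx⟩ := h Unit (fun _ => {x : H 𝕜 | 1 < ‖x 0‖}) (fun _ => Set.range fun k : ℕ => 4 ^ k)
    (fun _ => ⟨hO, hne⟩) (fun _ => hA)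
  have h1 := hx ()
  have ht : Tendsto (fun n => ‖x n‖ ^ 2) atTop (𝓝 0) := (summable_sq x).tendsto_atTop_zero
  have he := ht.eventually (gt_mem_nhds (show (0:ℝ) < 1 by norm_num))
  obtain ⟨N, hN⟩ := eventually_atTop.1 he
  apply h1
  refine (Set.finite_lt_nat N).subset ?_
  rintro n ⟨hn, k, rfl⟩
  by_contra hcon
  have hle : N ≤ 4 ^ k := not_lt.1 hcon
  have h2 := hN _ hle
  have h3 : 1 < ‖((T 𝕜)^[4 ^ k] x) 0‖ := hn
  rw [T_iter, zero_add, dd_pow, dd_zero, norm_mul, RCLike.norm_ofReal] at h3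
  rw [abs_of_nonneg (by positivity)] at h3
  norm_num at h3
  nlinarith [norm_nonneg (x (4 ^ k))]

variable (𝕜) in
lemma direct_sum (Y : Type u) [AddCommGroup Y] [Module 𝕜 Y] [TopologicalSpace Y]
    (hY : IsSpace 𝕜 Y) (S : Y →L[𝕜] Y)
    (hS : FHypercyclic {A : Set ℕ | A.Infinite} S) :
    FHypercyclic {A : Set ℕ | A.Infinite} (S.prodMap (T 𝕜)) := by
  have := hY.polish
  have := (isSpace_H 𝕜).polish
  have hcont : Continuous (S.prodMap (T 𝕜)) := (S.prodMap (T 𝕜)).continuous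
  refine birkhoff _ hcont ?_
  intro U V hU hUne hV hVne N
  obtain ⟨⟨u1, u2⟩, hu⟩ := hUne
  obtain ⟨⟨v1, v2⟩, hv⟩ := hVne
  obtain ⟨U1, U2, hU1, hU2, hu1, hu2, hUU⟩ := isOpen_prod_iff.1 hU u1 u2 hu
  obtain ⟨V1, V2, hV1, hV2, hv1, hv2, hVV⟩ := isOpen_prod_iff.1 hV v1 v2 hv
  obtain ⟨C, hC⟩ := far U2 V2 hU2 ⟨_, hu2⟩ hV2 ⟨_, hv2⟩
  obtain ⟨n, hn, hdn, y, hy, hy'⟩ :=
    return_far S S.continuous hS U1 V1 hU1 ⟨_, hu1⟩ hV1 ⟨_, hv1⟩ (max C N)
  obtain ⟨x, hx, hx'⟩ := hC n ((le_max_left _ _).trans hn) ((le_max_left _ _).trans hdn)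
  refine ⟨n, (le_max_right _ _).trans hn, (y, x), hUU ⟨hy, hx⟩, ?_⟩
  have hit : ∀ n : ℕ, ∀ z : Y × H 𝕜,
      (S.prodMap (T 𝕜))^[n] z = (S^[n] z.1, (T 𝕜)^[n] z.2) := by
    intro n
    induction n with
    | zero => intro z; rfl
    | succ n ih => intro z; rw [Function.iterate_succ_apply, ih]; rfl
  rw [hit]
  exact hVV ⟨hy', hx'⟩

end Shift

/-- `S ⊕ T` is `F`-hypercyclic for every `F`-hypercyclic continuous linear operator `S` on any
infinite-dimensional Polish topological vector space `Y` (in the universe `u`). -/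
def SumsAreHypercyclic (𝕜 : Type) [RCLike 𝕜] (F : Set (Set ℕ)) {X : Type} [AddCommGroup X]
    [Module 𝕜 X] [TopologicalSpace X] (T : X →L[𝕜] X) : Prop :=
  ∀ (Y : Type u) [AddCommGroup Y] [Module 𝕜 Y] [TopologicalSpace Y], IsSpace 𝕜 Y →
    ∀ S : Y →L[𝕜] Y, FHypercyclic F S → FHypercyclic F (S.prodMap T)

/-- **Negative answer to MP_1d57ab Q1.** For `𝕜 = ℝ` or `ℂ` and the Furstenberg family `F` of all
infinite subsets of `ℕ` there is an operator `T` on an infinite-dimensional Polish topological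
vector space (a weighted backward shift on `ℓ²`) such that `S ⊕ T` is `F`-hypercyclic for every
`F`-hypercyclic operator `S` on an infinite-dimensional Polish topological vector space, but `T` is
not hereditarily `F`-hypercyclic. -/
theorem result (𝕜 : Type) [RCLike 𝕜] :
    FurstenbergFamily {A : Set ℕ | A.Infinite} ∧
    ∃ (X : Type) (_ : AddCommGroup X) (_ : Module 𝕜 X) (_ : TopologicalSpace X)
      (T : X →L[𝕜] X), IsSpace 𝕜 X ∧ SumsAreHypercyclic.{u} 𝕜 {A : Set ℕ | A.Infinite} T ∧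
        ¬ HereditarilyFHypercyclic {A : Set ℕ | A.Infinite} T := by
  refine ⟨⟨fun A hA => Set.Infinite.nonempty hA, fun A hA B hAB => Set.Infinite.mono hAB hA⟩,
    H 𝕜, inferInstance, inferInstance, inferInstance, T 𝕜, isSpace_H 𝕜, ?_, not_hereditary 𝕜⟩
  intro Y _ _ _ hY S hS
  exact direct_sum 𝕜 Y hY S hS

end Pool.Agent.Results.MP_1d57ab_an.DirectSumNotHereditary
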